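import Pool.Agent.H.MP_f37e0b_al.C

set_option autoImplicit false

namespace Pool.Agent.Results.MP_f37e0b_al.No

open CategoryTheory Pretriangulated Pool.Agent.H.MP_f37e0b_al

variable (C : Type 1) [Category.{1} C] [Preadditive C] [Limits.HasZeroObject C] [HasShift C ℤ]
  [∀ n : ℤ, (shiftFunctor C n).Additive] [Pretriangulated C]

/-- `C` is triangulated, has a good map of exact triangles that is not Verdier good, and has a
Verdier good map of exact triangles that is not good. -/
def Cex : Prop := IsTriangulated C ∧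
  (∃ (T T' : Triangle C) (φ : T ⟶ T'), T ∈ distTriang C ∧ T' ∈ distTriang C ∧
    Good φ ∧ ¬ VerdierGood φ) ∧
  ∃ (T T' : Triangle C) (φ : T ⟶ T'), T ∈ distTriang C ∧ T' ∈ distTriang C ∧
    VerdierGood φ ∧ (∀ D : Aux φ, VGFor D) ∧ ¬ Good φ

/-- Both implications fail in the derived category of a commutative ring. -/
theorem result : ∃ (R : Type) (_ : CommRing R), Cex (DC R) := by
  obtain ⟨T, T', φ, -, h1, h2, h3, h4, -⟩ := exR (R := Rg) (TrivSqZeroExt.inl 2) fun t h => by
    have := congrArg TrivSqZeroExt.fst h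
    simp at this
    omega
  exact ⟨Rg, inferInstance, inferInstance, exG, T, T', φ, h1, h2, h3, (vg_iff φ).mp h3, h4⟩

end Pool.Agent.Results.MP_f37e0b_al.No
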